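import Pool.Agent.N44.FA.Stm

/-!
# Project FA (helper44), PRO: finite quotients of subgroups of products of perfect finite groups

By helper814.
-/

set_option autoImplicit false

namespace Pool.Agent.N814.FA

open Pool.Agent.N44.FA

section

variable {S : ℕ → Type} [∀ k, Group (S k)]

open Classical in
/-- truncation -/
noncomputable def tr (n : ℕ) : (∀ k, S k) →* (∀ k, S k) where
  toFun h := fun k => if k < n then 1 else h k
  map_one' := by
    funext k
    rw [Pi.one_apply, ite_self]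
  map_mul' g h := by
    funext k
    change (if k < n then 1 else g k * h k) = (if k < n then 1 else g k) * (if k < n then 1 else h k)
    by_cases hk : k < n
    · rw [if_pos hk, if_pos hk, if_pos hk, one_mul]
    · rw [if_neg hk, if_neg hk, if_neg hk]

lemma tr_lt {n k : ℕ} (hk : k < n) (h : ∀ k, S k) : tr n h k = 1 := if_pos hk

lemma tr_ge {n k : ℕ} (hk : ¬ k < n) (h : ∀ k, S k) : tr n h k = h k := if_neg hk

lemma tr_zero (h : ∀ k, S k) : tr 0 h = h := by
  funext k
  exact tr_ge (Nat.not_lt_zero k) h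

lemma tr_succ (n : ℕ) (h : ∀ k, S k) :
    tr (n + 1) h = tr n h * (Pi.mulSingle n (h n))⁻¹ := by
  funext k
  rw [Pi.mul_apply, Pi.inv_apply]
  rcases lt_trichotomy k n with hk | rfl | hk
  · rw [tr_lt (by omega), tr_lt hk, Pi.mulSingle_eq_of_ne hk.ne, inv_one, mul_one]
  · rw [tr_lt (by omega), tr_ge (lt_irrefl k), Pi.mulSingle_eq_same, mul_inv_cancel]
  · rw [tr_ge (by omega), tr_ge (by omega), Pi.mulSingle_eq_of_ne hk.ne', inv_one, mul_one]

lemma tr_mem {H : Subgroup (∀ k, S k)}
    (hH : ∀ (k : ℕ) (s : S k), (Pi.mulSingle k s : ∀ k, S k) ∈ H) (n : ℕ) {h : ∀ k, S k}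
    (hh : h ∈ H) : tr n h ∈ H := by
  induction n with
  | zero => rw [tr_zero]; exact hh
  | succ n ih =>
    rw [tr_succ]
    exact H.mul_mem ih (H.inv_mem (hH n _))

lemma tr_single_lt {n k : ℕ} (hk : k < n) (s : S k) :
    tr n (Pi.mulSingle k s : ∀ k, S k) = 1 := by
  funext l
  by_cases hl : l < n
  · rw [tr_lt hl, Pi.one_apply]
  · rw [tr_ge hl, Pi.mulSingle_eq_of_ne (by omega), Pi.one_apply]

lemma tr_single_ge {n k : ℕ} (hk : ¬ k < n) (s : S k) :
    tr n (Pi.mulSingle k s : ∀ k, S k) = Pi.mulSingle k s := by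
  funext l
  by_cases hl : l < n
  · rw [tr_lt hl, Pi.mulSingle_eq_of_ne (by omega)]
  · rw [tr_ge hl]

/-- the factors -/
noncomputable def io {H : Subgroup (∀ k, S k)}
    (hH : ∀ (k : ℕ) (s : S k), (Pi.mulSingle k s : ∀ k, S k) ∈ H) (k : ℕ) : S k →* H :=
  (MonoidHom.mulSingle S k).codRestrict H (hH k)

lemma io_comm {H : Subgroup (∀ k, S k)}
    (hH : ∀ (k : ℕ) (s : S k), (Pi.mulSingle k s : ∀ k, S k) ∈ H) {k l : ℕ} (hkl : k ≠ l)
    (s : S k) (t : S l) : io hH k s * io hH l t = io hH l t * io hH k s :=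
  Subtype.ext (Pi.mulSingle_commute hkl s t)

/-- a homomorphism from a perfect group with commuting values is trivial -/
lemma triv_of_comm {P Q : Type} [Group P] [Group Q] (hP : commutator P = ⊤) (f : P →* Q)
    (h : ∀ x y, f x * f y = f y * f x) (s : P) : f s = 1 := by
  have h1 : commutator P ≤ f.ker := by
    rw [commutator_def, Subgroup.commutator_le]
    intro g₁ _ g₂ _
    rw [MonoidHom.mem_ker, map_commutatorElement, commutatorElement_eq_one_iff_mul_comm]
    exact h g₁ g₂
  rw [hP] at h1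
  exact h1 (Subgroup.mem_top s)

end

theorem t_pro : S_PRO := by
  classical
  intro S _ _ hperf H hH hN N hNn hidx
  have hfi : N.FiniteIndex := ⟨hidx⟩
  have hfin : Finite (H ⧸ N) := inferInstance
  obtain ⟨q, hq⟩ : ∃ q : H →* H ⧸ N, q = QuotientGroup.mk' N := ⟨_, rfl⟩
  -- noncommuting elements
  have hbad : ∀ k, (∃ s, q (io hH k s) ≠ 1) →
      ∃ x y : S k, q (io hH k x) * q (io hH k y) ≠ q (io hH k y) * q (io hH k x) := by
    rintro k ⟨s, hs⟩
    by_contra hcon
    refine hs (triv_of_comm (hperf k) (q.comp (io hH k)) (fun x y => ?_) s)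
    by_contra hxy
    exact hcon ⟨x, y, hxy⟩
  have hBf : {k : ℕ | ∃ s, q (io hH k s) ≠ 1}.Finite := by
    choose! x hx using hbad
    refine Set.Finite.of_injOn (t := Set.univ) (f := fun k => q (io hH k (x k))) ?_ ?_
      Set.finite_univ
    · intro k _
      exact Set.mem_univ _
    · intro k hk l hl hkl
      by_contra hne
      obtain ⟨y, hy⟩ := hx k hk
      apply hy
      have hkl' : q (io hH k (x k)) = q (io hH l (x l)) := hkl
      rw [hkl', ← map_mul, ← map_mul, io_comm hH (Ne.symm hne)]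
  obtain ⟨n, hn⟩ : ∃ n : ℕ, ∀ k, ¬ k < n → ∀ s, q (io hH k s) = 1 := by
    obtain ⟨M, hM⟩ := hBf.bddAbove
    refine ⟨M + 1, fun k hk s => ?_⟩
    by_contra hs
    have := hM ⟨s, hs⟩
    omega
  refine ⟨n, fun h hh => ?_⟩
  -- truncation on `H`
  let t : H →* H := ((tr n).comp H.subtype).codRestrict H (fun h => tr_mem hH n h.2)
  have ht : ∀ h : H, ((t h : H) : ∀ k, S k) = tr n h := fun h => rfl
  have htop : (q.comp t).ker = ⊤ := by
    refine hN (q.comp t).ker inferInstance ?_ ?_
    · rw [Subgroup.index_ker]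
      exact Nat.card_pos.ne'
    · intro k s hks
      rw [MonoidHom.mem_ker, MonoidHom.comp_apply]
      by_cases hk : k < n
      · have h1 : t ⟨Pi.mulSingle k s, hks⟩ = 1 := Subtype.ext (tr_single_lt hk s)
        rw [h1, map_one]
      · have h1 : t ⟨Pi.mulSingle k s, hks⟩ = io hH k s := Subtype.ext (tr_single_ge hk s)
        rw [h1]
        exact hn k hk s
  have h1 : t h = h := by
    apply Subtype.ext
    rw [ht]
    funext k
    by_cases hk : k < n
    · rw [tr_lt hk, hh k hk]
    · rw [tr_ge hk]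
  have h2 : h ∈ (q.comp t).ker := by
    rw [htop]
    exact Subgroup.mem_top h
  rw [MonoidHom.mem_ker, MonoidHom.comp_apply, h1, hq, QuotientGroup.mk'_apply,
    QuotientGroup.eq_one_iff] at h2
  exact h2

end Pool.Agent.N814.FA
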